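import Pool.Agent.Y690.PP.Stm

/-!
# Project PP: sums of periodic functions over discs, lattice points in annuli
-/

set_option autoImplicit false

open Finset

namespace Pool.Agent.Y808.PP

open Pool.Agent.Y690.PP

theorem nm_int (a : G) : ((nm a : ℕ) : ℤ) = a.re ^ 2 + a.im ^ 2 := by
  have h : a.norm = a.re ^ 2 + a.im ^ 2 := by
    rw [Zsqrtd.norm_def]
    ring
  unfold nm
  rw [Int.natCast_natAbs, abs_of_nonneg, h]
  rw [h]
  positivity

theorem nm_real (a : G) : ((nm a : ℕ) : ℝ) = (a.re : ℝ) ^ 2 + (a.im : ℝ) ^ 2 := by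
  have h := nm_int a
  have h2 : (((nm a : ℕ) : ℤ) : ℝ) = ((a.re ^ 2 + a.im ^ 2 : ℤ) : ℝ) := by rw [h]
  push_cast at h2
  exact h2

/-- bound of a coordinate -/
theorem coord {z : ℤ} {x : ℝ} (hx : 0 ≤ x) (h : (z : ℝ) ^ 2 ≤ x) :
    z ∈ Icc (-(⌊Real.sqrt x⌋₊ : ℤ)) (⌊Real.sqrt x⌋₊ : ℤ) := by
  have h1 : |(z : ℝ)| ≤ Real.sqrt x := by
    rw [← Real.sqrt_sq_eq_abs]
    exact Real.sqrt_le_sqrt h
  have h2 : (z.natAbs : ℝ) ≤ Real.sqrt x := by
    rw [Nat.cast_natAbs]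
    push_cast
    exact h1
  have h3 : z.natAbs ≤ ⌊Real.sqrt x⌋₊ := Nat.le_floor h2
  rw [mem_Icc]
  omega

/-- the box containing the disc -/
noncomputable def box (x : ℝ) : Finset G :=
  ((Icc (-(⌊Real.sqrt x⌋₊ : ℤ)) (⌊Real.sqrt x⌋₊ : ℤ)) ×ˢ
    (Icc (-(⌊Real.sqrt x⌋₊ : ℤ)) (⌊Real.sqrt x⌋₊ : ℤ))).image fun p => (⟨p.1, p.2⟩ : G)

theorem mem_box {x : ℝ} {v : G} (h : (nm v : ℝ) ≤ x) : v ∈ box x := by
  have hx : 0 ≤ x := le_trans (Nat.cast_nonneg _) h
  rw [nm_real] at h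
  rw [box, mem_image]
  refine ⟨(v.re, v.im), ?_, rfl⟩
  rw [mem_product]
  exact ⟨coord hx (by nlinarith [sq_nonneg (v.im : ℝ)]), coord hx (by nlinarith [sq_nonneg (v.re : ℝ)])⟩

theorem fin_disc (x : ℝ) : {v : G | (nm v : ℝ) ≤ x}.Finite :=
  (box x).finite_toSet.subset fun _ hv => mem_box hv

theorem mem_disc {x : ℝ} {v : G} : v ∈ disc x ↔ (nm v : ℝ) ≤ x := by
  unfold disc
  rw [dif_pos (fin_disc x)]
  simp

theorem card_Icc_floor (x : ℝ) (hx : 1 ≤ x) :
    (#(Icc (-(⌊Real.sqrt x⌋₊ : ℤ)) (⌊Real.sqrt x⌋₊ : ℤ)) : ℝ) ≤ 3 * Real.sqrt x := by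
  have h1 : #(Icc (-(⌊Real.sqrt x⌋₊ : ℤ)) (⌊Real.sqrt x⌋₊ : ℤ)) = 2 * ⌊Real.sqrt x⌋₊ + 1 := by
    rw [Int.card_Icc]
    omega
  rw [h1]
  push_cast
  have h2 : (⌊Real.sqrt x⌋₊ : ℝ) ≤ Real.sqrt x := Nat.floor_le (Real.sqrt_nonneg _)
  have h3 : 1 ≤ Real.sqrt x := by
    rw [Real.one_le_sqrt]
    exact hx
  linarith

theorem card_disc (x : ℝ) (hx : 1 ≤ x) : (#(disc x) : ℝ) ≤ 9 * x := by
  have h1 : disc x ⊆ box x := fun v hv => mem_box (mem_disc.1 hv)
  have h2 : #(disc x) ≤ #(Icc (-(⌊Real.sqrt x⌋₊ : ℤ)) (⌊Real.sqrt x⌋₊ : ℤ)) *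
      #(Icc (-(⌊Real.sqrt x⌋₊ : ℤ)) (⌊Real.sqrt x⌋₊ : ℤ)) := by
    refine (card_le_card h1).trans ?_
    unfold box
    refine card_image_le.trans ?_
    rw [card_product]
  have h3 := card_Icc_floor x hx
  have h4 : (#(disc x) : ℝ) ≤ (#(Icc (-(⌊Real.sqrt x⌋₊ : ℤ)) (⌊Real.sqrt x⌋₊ : ℤ)) : ℝ) *
      (#(Icc (-(⌊Real.sqrt x⌋₊ : ℤ)) (⌊Real.sqrt x⌋₊ : ℤ)) : ℝ) := by exact_mod_cast h2
  have h5 : Real.sqrt x * Real.sqrt x = x := Real.mul_self_sqrt (by linarith)
  calc (#(disc x) : ℝ) ≤ _ := h4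
    _ ≤ (3 * Real.sqrt x) * (3 * Real.sqrt x) := by gcongr
    _ = 9 * x := by linear_combination 9 * h5

/-- integers with bounded differences -/
theorem card_diff (T : Finset ℤ) (K : ℕ) (h : ∀ a ∈ T, ∀ b ∈ T, b - a ≤ K) : #T ≤ K + 1 := by
  rcases T.eq_empty_or_nonempty with rfl | hT
  · simp
  · obtain ⟨m, hm, hmin⟩ := exists_min_image T id hT
    have hs : T ⊆ Icc m (m + K) := by
      intro b hb
      rw [mem_Icc]
      have h1 := h m hm b hb
      have h2 := hmin b hb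
      simp only [id] at h2
      constructor
      · exact h2
      · linarith
    refine (card_le_card hs).trans ?_
    rw [Int.card_Icc]
    omega

/-- integers whose squares lie in an interval of length `y` -/
theorem card_sq (T : Finset ℤ) (u y : ℝ) (hy : 1 ≤ y)
    (h : ∀ b ∈ T, u < (b : ℝ) ^ 2 ∧ (b : ℝ) ^ 2 ≤ u + y) : (#T : ℝ) ≤ 4 * Real.sqrt y := by
  have hy0 : 0 ≤ y := by linarith
  obtain ⟨K, hK⟩ : ∃ K, K = ⌊Real.sqrt y⌋₊ := ⟨_, rfl⟩
  have key : ∀ a b : ℤ, 0 ≤ a → a ≤ b → u < (a : ℝ) ^ 2 → (b : ℝ) ^ 2 ≤ u + y → b - a ≤ K := by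
    intro a b ha hab h1 h2
    have ha' : (0 : ℝ) ≤ a := by exact_mod_cast ha
    have hab' : (a : ℝ) ≤ b := by exact_mod_cast hab
    have h3 : ((b - a : ℤ) : ℝ) ^ 2 ≤ y := by
      push_cast
      nlinarith
    have h4 := coord hy0 h3
    rw [mem_Icc, ← hK] at h4
    exact h4.2
  have hp : #(T.filter (fun b => 0 ≤ b)) ≤ K + 1 := by
    refine card_diff _ _ ?_
    intro a ha b hb
    rw [mem_filter] at ha hb
    rcases le_total a b with hab | hab
    · exact key a b ha.2 hab (h a ha.1).1 (h b hb.1).2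
    · have : (0 : ℤ) ≤ K := Int.natCast_nonneg K
      linarith
  have hn : #(T.filter (fun b => ¬ 0 ≤ b)) ≤ K + 1 := by
    refine card_diff _ _ ?_
    intro a ha b hb
    rw [mem_filter] at ha hb
    rcases le_total a b with hab | hab
    · have e := key (-b) (-a) (by omega) (by omega) (by push_cast; rw [neg_sq]; exact (h b hb.1).1)
        (by push_cast; rw [neg_sq]; exact (h a ha.1).2)
      linarith
    · have : (0 : ℤ) ≤ K := Int.natCast_nonneg K
      linarith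
  have hT : #T ≤ 2 * K + 2 := by
    have := card_filter_add_card_filter_not (s := T) (fun b : ℤ => 0 ≤ b)
    omega
  have h1 : (#T : ℝ) ≤ 2 * K + 2 := by exact_mod_cast hT
  have h2 : (K : ℝ) ≤ Real.sqrt y := by
    rw [hK]
    exact Nat.floor_le (Real.sqrt_nonneg _)
  have h3 : 1 ≤ Real.sqrt y := by
    rw [Real.one_le_sqrt]
    exact hy
  linarith

theorem ann (x y : ℝ) (hx : 1 ≤ x) (hy : 1 ≤ y) :
    (#((disc (x + y)).filter fun v => x < (nm v : ℝ)) : ℝ) ≤ 12 * Real.sqrt ((x + y) * y) := by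
  classical
  set S := (disc (x + y)).filter fun v => x < (nm v : ℝ) with hS
  have hmem : ∀ v ∈ S, (nm v : ℝ) ≤ x + y ∧ x < (nm v : ℝ) := by
    intro v hv
    rw [hS, mem_filter, mem_disc] at hv
    exact hv
  set n := ⌊4 * Real.sqrt y⌋₊ with hn
  have h1 : #S ≤ n * #(S.image fun v : G => v.re) := by
    refine card_le_mul_card_image _ n ?_
    intro a _
    have hinj : #(S.filter fun v => v.re = a) = #((S.filter fun v => v.re = a).image fun v => v.im) := by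
      rw [card_image_of_injOn]
      intro v hv w hw hvw
      rw [mem_coe, mem_filter] at hv hw
      exact Zsqrtd.ext (hv.2.trans hw.2.symm) hvw
    rw [hinj]
    refine Nat.le_floor ?_
    refine card_sq _ (x - (a : ℝ) ^ 2) y hy ?_
    intro b hb
    rw [mem_image] at hb
    obtain ⟨v, hv, rfl⟩ := hb
    rw [mem_filter] at hv
    have h2 := hmem v hv.1
    rw [nm_real, hv.2] at h2
    constructor <;> linarith [h2.1, h2.2]
  have h2 : S.image (fun v : G => v.re) ⊆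
      Icc (-(⌊Real.sqrt (x + y)⌋₊ : ℤ)) (⌊Real.sqrt (x + y)⌋₊ : ℤ) := by
    intro a ha
    rw [mem_image] at ha
    obtain ⟨v, hv, rfl⟩ := ha
    refine coord (by linarith) ?_
    have h3 := (hmem v hv).1
    rw [nm_real] at h3
    nlinarith [sq_nonneg (v.im : ℝ)]
  have h3 := card_le_card h2
  have h4 := card_Icc_floor (x + y) (by linarith)
  have h5 : (#(S.image fun v : G => v.re) : ℝ) ≤ 3 * Real.sqrt (x + y) :=
    le_trans (by exact_mod_cast h3) h4
  have h6 : (n : ℝ) ≤ 4 * Real.sqrt y := Nat.floor_le (by positivity)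
  calc (#S : ℝ) ≤ (n : ℝ) * (#(S.image fun v : G => v.re) : ℝ) := by exact_mod_cast h1
    _ ≤ (4 * Real.sqrt y) * (3 * Real.sqrt (x + y)) := by gcongr
    _ = 12 * Real.sqrt ((x + y) * y) := by
      rw [Real.sqrt_mul (by linarith)]
      ring

theorem t_ANN : SANN := by
  refine ⟨12, fun x y hx hy => ?_⟩
  rw [← Real.sqrt_eq_rpow]
  exact ann x y hx hy

/-! ## periodic functions -/

theorem shift1 (M : ℕ) (f : ℤ → ℝ) (hf : ∀ a, f (a + M) = f a) (a : ℤ) :
    ∑ i ∈ range M, f (a + i) = ∑ i ∈ range M, f i := by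
  have step : ∀ a : ℤ, ∑ i ∈ range M, f (a + 1 + i) = ∑ i ∈ range M, f (a + i) := by
    intro a
    have h1 := sum_range_succ (fun i : ℕ => f (a + i)) M
    have h2 := sum_range_succ' (fun i : ℕ => f (a + i)) M
    have h3 : ∀ i : ℕ, f (a + ((i + 1 : ℕ) : ℤ)) = f (a + 1 + i) := by
      intro i
      congr 1
      push_cast
      ring
    simp only [h3] at h2
    have h4 : f (a + ((0 : ℕ) : ℤ)) = f (a + M) := by
      rw [hf]
      simp
    linarith [h1, h2, h4]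
  induction a using Int.induction_on with
  | zero => simp
  | succ n ih => rw [step, ih]
  | pred n ih =>
    have h := step (-(n : ℤ) - 1)
    rw [← h, ← ih]
    congr 1
    ext i
    congr 1
    ring

theorem shift2 (M : ℕ) (h : G → ℝ) (hp : ∀ v w : G, (M : G) ∣ v - w → h v = h w) (v : G) :
    ∑ i ∈ range M, ∑ j ∈ range M, h (v + ⟨(i : ℤ), (j : ℤ)⟩) =
      ∑ i ∈ range M, ∑ j ∈ range M, h ⟨(i : ℤ), (j : ℤ)⟩ := by
  have e1 : ∀ i j : ℕ, v + (⟨(i : ℤ), (j : ℤ)⟩ : G) = ⟨v.re + i, v.im + j⟩ := by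
    intro i j
    ext <;> simp
  simp only [e1]
  have p1 : ∀ a b : ℤ, h ⟨a, b + M⟩ = h ⟨a, b⟩ := by
    intro a b
    refine hp _ _ ⟨⟨0, 1⟩, ?_⟩
    ext <;> simp
  have p2 : ∀ a b : ℤ, h ⟨a + M, b⟩ = h ⟨a, b⟩ := by
    intro a b
    refine hp _ _ ⟨⟨1, 0⟩, ?_⟩
    ext <;> simp
  have s1 : ∀ a : ℤ, ∑ j ∈ range M, h ⟨a, v.im + j⟩ = ∑ j ∈ range M, h ⟨a, (j : ℤ)⟩ :=
    fun a => shift1 M (fun b => h ⟨a, b⟩) (fun b => p1 a b) v.im
  simp only [s1]
  exact shift1 M (fun a => ∑ j ∈ range M, h ⟨a, (j : ℤ)⟩)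
    (fun a => sum_congr rfl fun j _ => p2 a j) v.re

/-- the norm as a square -/
theorem nm_cpx (v : G) : (nm v : ℝ) = ‖(⟨(v.re : ℝ), (v.im : ℝ)⟩ : ℂ)‖ ^ 2 := by
  rw [nm_real, Complex.sq_norm, Complex.normSq_apply]
  ring

/-- the absolute value -/
noncomputable def ab (v : G) : ℝ := ‖(⟨(v.re : ℝ), (v.im : ℝ)⟩ : ℂ)‖

theorem ab_nonneg (v : G) : 0 ≤ ab v := norm_nonneg _

theorem nm_ab (v : G) : (nm v : ℝ) = ab v ^ 2 := nm_cpx v

theorem ab_add (v w : G) : ab (v + w) ≤ ab v + ab w := by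
  have : (⟨((v + w).re : ℝ), ((v + w).im : ℝ)⟩ : ℂ) = ⟨(v.re : ℝ), (v.im : ℝ)⟩ + ⟨(w.re : ℝ), (w.im : ℝ)⟩ := by
    apply Complex.ext <;> simp
  unfold ab
  rw [this]
  exact norm_add_le _ _

theorem ab_neg (v : G) : ab (-v) = ab v := by
  have : (⟨((-v).re : ℝ), ((-v).im : ℝ)⟩ : ℂ) = -⟨(v.re : ℝ), (v.im : ℝ)⟩ := by
    apply Complex.ext <;> simp
  unfold ab
  rw [this]
  exact norm_neg _

theorem rpow_eq (M x : ℝ) (hM : 0 ≤ M) (hx : 0 ≤ x) :
    M ^ (1 / 2 : ℝ) * x ^ (3 / 4 : ℝ) = Real.sqrt (M * Real.sqrt x ^ 3) := by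
  have hs : 0 ≤ Real.sqrt x := Real.sqrt_nonneg x
  have h1 : x = Real.sqrt x ^ (2 : ℝ) := by
    rw [Real.rpow_two, Real.sq_sqrt hx]
  have h2 : x ^ (3 / 4 : ℝ) = Real.sqrt x ^ (3 / 2 : ℝ) := by
    conv_lhs => rw [h1]
    rw [← Real.rpow_mul hs]
    norm_num
  have h3 : Real.sqrt (Real.sqrt x ^ 3) = Real.sqrt x ^ (3 / 2 : ℝ) := by
    rw [Real.sqrt_eq_rpow, ← Real.rpow_natCast (Real.sqrt x) 3, ← Real.rpow_mul hs]
    norm_num
  rw [Real.sqrt_mul hM, h3, h2, ← Real.sqrt_eq_rpow]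

/-- one translation -/
theorem cnt (x : ℝ) (M : ℕ) (hM : 1 ≤ M) (hx : 100 * (M : ℝ) ^ 2 ≤ x) (r : G) (hr : ab r ≤ 2 * M)
    (U : Finset G) [DecidablePred fun v => ¬ (v + r ∈ disc x ↔ v ∈ disc x)] :
    (#(U.filter fun v => ¬ (v + r ∈ disc x ↔ v ∈ disc x)) : ℝ) ≤
      12 * Real.sqrt (20 * (M * Real.sqrt x ^ 3)) := by
  classical
  have hM' : (1 : ℝ) ≤ M := by exact_mod_cast hM
  obtain ⟨s, hs⟩ : ∃ s, s = Real.sqrt x := ⟨_, rfl⟩
  have hx0 : 0 ≤ x := by nlinarith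
  have hs0 : 0 ≤ s := by rw [hs]; exact Real.sqrt_nonneg x
  have hsx : s ^ 2 = x := by rw [hs]; exact Real.sq_sqrt hx0
  have hsM : 10 * (M : ℝ) ≤ s := by
    rw [hs]
    refine Real.le_sqrt_of_sq_le ?_
    nlinarith
  have hsub : (U.filter fun v => ¬ (v + r ∈ disc x ↔ v ∈ disc x)) ⊆
      (disc ((x - 5 * M * s) + 10 * M * s)).filter fun v => x - 5 * M * s < (nm v : ℝ) := by
    intro v hv
    rw [mem_filter] at hv
    have hv2 := hv.2
    rw [mem_disc, mem_disc, nm_ab, nm_ab] at hv2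
    rw [mem_filter, mem_disc, nm_ab]
    have h1 : ab (v + r) ≤ ab v + 2 * M := (ab_add v r).trans (by linarith)
    have h2 : ab v ≤ ab (v + r) + 2 * M := by
      have e : v = (v + r) + (-r) := by ring
      calc ab v = ab ((v + r) + (-r)) := by rw [← e]
        _ ≤ ab (v + r) + ab (-r) := ab_add _ _
        _ ≤ ab (v + r) + 2 * M := by rw [ab_neg]; linarith
    have h3 := ab_nonneg v
    have h4 := ab_nonneg (v + r)
    by_cases hc : ab v ^ 2 ≤ x
    · have hc2 : ¬ ab (v + r) ^ 2 ≤ x := fun h => hv2 ⟨fun _ => hc, fun _ => h⟩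
      have h5 : s < ab (v + r) := by
        rw [not_le] at hc2
        nlinarith
      have h6 : s - 2 * M < ab v := by linarith
      constructor
      · nlinarith
      · have h7 : (s - 2 * M) ^ 2 < ab v ^ 2 := by
          refine pow_lt_pow_left₀ h6 (by linarith) (by norm_num)
        nlinarith
    · have hc2 : ab (v + r) ^ 2 ≤ x := by
        by_contra h
        exact hv2 ⟨fun h' => absurd h' h, fun h' => absurd h' hc⟩
      have h5 : ab (v + r) ≤ s := by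
        rw [hs]
        exact Real.le_sqrt_of_sq_le hc2
      have h6 : ab v ≤ s + 2 * M := by linarith
      rw [not_le] at hc
      constructor
      · have h7 : ab v ^ 2 ≤ (s + 2 * M) ^ 2 := pow_le_pow_left₀ h3 h6 2
        nlinarith
      · nlinarith
  refine (Nat.cast_le.2 (card_le_card hsub)).trans ?_
  refine (ann (x - 5 * M * s) (10 * M * s) (by nlinarith) (by nlinarith)).trans ?_
  rw [← hs]
  have h2 : (x - 5 * M * s + 10 * M * s) * (10 * M * s) ≤ 20 * (M * s ^ 3) := by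
    have h3 : 0 ≤ M * s := by positivity
    have h4 : x - 5 * M * s + 10 * M * s ≤ 2 * s ^ 2 := by nlinarith
    calc (x - 5 * M * s + 10 * M * s) * (10 * M * s) ≤ (2 * s ^ 2) * (10 * M * s) := by
          refine mul_le_mul_of_nonneg_right h4 (by linarith)
      _ = 20 * (M * s ^ 3) := by ring
  have h3 := Real.sqrt_le_sqrt h2
  linarith

theorem t_DISC : SDISC := by
  classical
  refine ⟨60, fun M h hM hb hp hz x hx => ?_⟩
  have hM' : (1 : ℝ) ≤ M := by exact_mod_cast hM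
  have hs0 : 0 ≤ Real.sqrt x := Real.sqrt_nonneg x
  have hx0 : 0 ≤ x := by linarith
  have hsx : Real.sqrt x ^ 2 = x := Real.sq_sqrt hx0
  rw [mul_assoc, rpow_eq M x (by linarith) hx0]
  by_cases hc : 100 * (M : ℝ) ^ 2 ≤ x
  · -- averaging
    set D := disc x with hD
    set B := range M ×ˢ range M with hB
    set rr : ℕ × ℕ → G := fun p => ⟨(p.1 : ℤ), (p.2 : ℤ)⟩ with hrr
    set U : Finset G := B.biUnion (fun p => D.image (fun v => v - rr p)) ∪ D with hU
    have hU1 : ∀ p ∈ B, ∀ v ∈ D, v - rr p ∈ U := by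
      intro p hp1 v hv
      rw [hU, mem_union, mem_biUnion]
      exact Or.inl ⟨p, hp1, mem_image_of_mem _ hv⟩
    have hU2 : D ⊆ U := subset_union_right
    have e1 : ∀ p ∈ B, ∑ v ∈ U, (if v + rr p ∈ D then h (v + rr p) else 0) = ∑ v ∈ D, h v := by
      intro p hp1
      rw [← sum_filter]
      symm
      refine sum_nbij' (fun v => v - rr p) (fun v => v + rr p) ?_ ?_ ?_ ?_ ?_
      · intro v hv
        rw [mem_filter]
        refine ⟨hU1 p hp1 v hv, ?_⟩
        rw [sub_add_cancel]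
        exact hv
      · intro v hv
        exact (mem_filter.1 hv).2
      · intro v _
        exact sub_add_cancel _ _
      · intro v _
        exact add_sub_cancel_right _ _
      · intro v _
        rw [sub_add_cancel]
    have e2 : ∑ p ∈ B, ∑ v ∈ U, (if v ∈ D then h (v + rr p) else 0) = 0 := by
      rw [sum_comm]
      refine sum_eq_zero fun v _ => ?_
      by_cases hv : v ∈ D
      · simp only [hv, if_true]
        rw [hB, sum_product]
        rw [shift2 M h hp v]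
        exact hz
      · simp [hv]
    have e3 : (M : ℝ) ^ 2 * ∑ v ∈ D, h v = ∑ p ∈ B, ∑ v ∈ U,
        ((if v + rr p ∈ D then h (v + rr p) else 0) - (if v ∈ D then h (v + rr p) else 0)) := by
      have : ∑ p ∈ B, ∑ v ∈ U, (if v + rr p ∈ D then h (v + rr p) else 0) =
          (M : ℝ) ^ 2 * ∑ v ∈ D, h v := by
        rw [sum_congr rfl e1, sum_const, hB, card_product, card_range]
        simp only [nsmul_eq_mul]
        push_cast
        ring
      simp only [sum_sub_distrib]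
      rw [this, e2, sub_zero]
    have e4 : ∀ p ∈ B, |∑ v ∈ U,
        ((if v + rr p ∈ D then h (v + rr p) else 0) - (if v ∈ D then h (v + rr p) else 0))| ≤
        12 * Real.sqrt (20 * (M * Real.sqrt x ^ 3)) := by
      intro p hp1
      refine (abs_sum_le_sum_abs _ _).trans ?_
      have hr : ab (rr p) ≤ 2 * M := by
        rw [hB, mem_product, mem_range, mem_range] at hp1
        have h1 : (p.1 : ℝ) ≤ M := by exact_mod_cast hp1.1.le
        have h2 : (p.2 : ℝ) ≤ M := by exact_mod_cast hp1.2.le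
        have h3 : ab (rr p) ^ 2 ≤ (2 * M) ^ 2 := by
          rw [← nm_ab, nm_real]
          simp only [hrr]
          push_cast
          nlinarith [Nat.cast_nonneg (α := ℝ) p.1, Nat.cast_nonneg (α := ℝ) p.2]
        exact le_of_sq_le_sq h3 (by positivity)
      have h1 : ∀ v ∈ U, |(if v + rr p ∈ D then h (v + rr p) else 0) -
          (if v ∈ D then h (v + rr p) else 0)| ≤ if ¬ (v + rr p ∈ D ↔ v ∈ D) then (1 : ℝ) else 0 := by
        intro v _
        by_cases h1 : v + rr p ∈ D <;> by_cases h2 : v ∈ D <;> simp [h1, h2, hb]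
      refine (sum_le_sum h1).trans ?_
      rw [← sum_filter, sum_const, nsmul_eq_mul, mul_one]
      exact cnt x M hM hc (rr p) hr U
    have e5 : (M : ℝ) ^ 2 * |∑ v ∈ D, h v| ≤
        (M : ℝ) ^ 2 * (12 * Real.sqrt (20 * (M * Real.sqrt x ^ 3))) := by
      have h1 : (M : ℝ) ^ 2 * |∑ v ∈ D, h v| = |(M : ℝ) ^ 2 * ∑ v ∈ D, h v| := by
        rw [abs_mul, abs_of_nonneg (by positivity : (0 : ℝ) ≤ (M : ℝ) ^ 2)]
      rw [h1, e3]
      refine (abs_sum_le_sum_abs _ _).trans ?_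
      refine (sum_le_sum e4).trans ?_
      rw [sum_const, hB, card_product, card_range, nsmul_eq_mul]
      push_cast
      rw [sq]
    have e6 : |∑ v ∈ D, h v| ≤ 12 * Real.sqrt (20 * (M * Real.sqrt x ^ 3)) :=
      le_of_mul_le_mul_left e5 (by positivity)
    refine e6.trans ?_
    rw [Real.sqrt_mul (by norm_num)]
    have h20 : Real.sqrt 20 ≤ 5 := by
      rw [Real.sqrt_le_left (by norm_num)]
      norm_num
    have hq := Real.sqrt_nonneg ((M : ℝ) * Real.sqrt x ^ 3)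
    nlinarith
  · rw [not_le] at hc
    have h1 : |∑ v ∈ disc x, h v| ≤ #(disc x) := by
      refine (abs_sum_le_sum_abs _ _).trans ?_
      refine (sum_le_sum fun v _ => hb v).trans ?_
      simp
    have h2 : Real.sqrt x < 10 * M := by
      rw [Real.sqrt_lt' (by positivity)]
      nlinarith
    have h3 : x ≤ Real.sqrt (10 * (M * Real.sqrt x ^ 3)) := by
      refine Real.le_sqrt_of_sq_le ?_
      have h4 : x ^ 2 = Real.sqrt x ^ 3 * Real.sqrt x := by
        have e : Real.sqrt x ^ 3 * Real.sqrt x = (Real.sqrt x ^ 2) ^ 2 := by ring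
        rw [e, hsx]
      rw [h4]
      have h5 : 0 ≤ Real.sqrt x ^ 3 := by positivity
      nlinarith
    have h4 : Real.sqrt (10 * (M * Real.sqrt x ^ 3)) ≤ 4 * Real.sqrt (M * Real.sqrt x ^ 3) := by
      rw [Real.sqrt_mul (by norm_num)]
      have h10 : Real.sqrt 10 ≤ 4 := by
        rw [Real.sqrt_le_left (by norm_num)]
        norm_num
      exact mul_le_mul_of_nonneg_right h10 (Real.sqrt_nonneg _)
    have h5 := card_disc x hx
    have h6 := Real.sqrt_nonneg ((M : ℝ) * Real.sqrt x ^ 3)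
    linarith

end Pool.Agent.Y808.PP
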